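import Pool.Agent.V5helper78.KP.Lim

/-!
# The hyperplane form of the KLS conjecture for bodies given by few quadratic inequalities

Q1 for symmetric bodies

`K = {x ∈ ℝ^m | S_j(x) ≤ e_j for all j < r}` (bounded, with nonempty interior),

and for their symmetric images under affine maps of `ℝ^m` onto `ℝ^n`, `m ≤ n + p`, where for every `j` there
is a nonnegative (possibly degenerate) quadratic form `Q_j` on `ℝ^m` such that

`S_j - Q_j / 2` and `κ Q_j / 2 - S_j` are convex (for `C²` functions: `Q_j ≤ Hess S_j ≤ κ Q_j`).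

The constant depends only on `κ`, `r` and `p`. For `κ = 1` this is the class of all bodies given by `r`
convex quadratic inequalities `Q_j(x) + ⟪b_j, x⟫ ≤ e_j` (theorem `quadratic`): intersections of `r`
ellipsoids with arbitrary centres and axes, elliptic cylinders, elliptic paraboloids, half-spaces; no
common axes are assumed. The class is invariant under sections by affine subspaces of any dimension
(theorem `restrict`), and the symmetry is assumed for the image `T K` only.

For `r = 1` the body is uniformly convex, comparable to an ellipsoid, and the result is a variant of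
known facts (Bobkov and Ledoux; Milman and Sodin: isoperimetry for uniformly convex bodies). For
`r ≥ 2` the intersections are in general not uniformly convex with the right scale: the ratios of the sizes
of the sets `{S_j ≤ e_j}` are arbitrary, `{S_1 ≤ e_1}` may be cut far from its bulk by `{S_2 ≤ e_2}`
(exponentially small pieces), and the inertia ellipsoid of `K` is not related to any of the forms `Q_j`.

Method. (1) Canonical ensembles: for all `l_j > 0` the density `exp (-∑_j l_j S_j)` is pinched by the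
form `Q_l = ∑_j l_j Q_j`: `Q_l ≤ Hess ≤ κ Q_l`. The lower bound gives the Poincare inequality of Brascamp
and Lieb in the metric `Q_l`; the upper bound gives, by comparison of the two translates
`w(x ± h)` of the density (`w(x + h) w(x - h) ≥ w(x)² exp (-κ Q_l(h))`, in the Hellinger distance),
the lower bound `Var ⟪x, θ⟫ ≥ (2κ)⁻¹ Q_l^*(θ)`. Hence the Poincare inequality with constant `2 κ` in
isotropic position. (2) Microcanonical ensembles: the theorem of `GibbsLevelSets`
(modules `N483.KM`) gives the concentration for the level sets, for all levels `e_j`. (3) Degenerate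
forms and functions not bounded below (half-spaces, paraboloids): the body is the decreasing limit of
the bodies `{|x|² ≤ R², S_j(x) + (|x|² - R²) / (2 M) ≤ e_j}`, given by `r + 1` functions pinched by
positive definite forms. (4) Images and the passage from the concentration of all linear images to
central sections: as in `ImagesOfSections`.
-/

set_option autoImplicit false

namespace Pool.Agent.Results.MP_dc1397_gt.FewQuadratic

open MeasureTheory Set
open scoped ENNReal InnerProductSpace

/-- Euclidean space of dimension `n` -/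
abbrev Euc (n : ℕ) : Type := EuclideanSpace ℝ (Fin n)

/-- `Q` is a nonnegative quadratic form, and `S - Q / 2` and `κ Q / 2 - S` are convex on `ℝ^m`. For `C²`
functions `S` this means that `Q ≤ Hess S ≤ κ Q`. -/
structure Pinched (κ : ℝ) {m : ℕ} (Q : QuadraticForm ℝ (Euc m)) (S : Euc m → ℝ) : Prop where
  nonneg : ∀ x, 0 ≤ Q x
  lower : ConvexOn ℝ univ fun x => S x - Q x / 2
  upper : ConvexOn ℝ univ fun x => κ * Q x / 2 - S x

/-- bounded sets with nonempty interior `{x ∈ ℝ^m | S_j(x) ≤ e_j for all j < r}`, where each `S_j` is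
pinched by some nonnegative quadratic form `Q_j` -/
structure PinchedBody (κ : ℝ) (r : ℕ) {m : ℕ} (K : Set (Euc m)) : Prop where
  bdd : Bornology.IsBounded K
  int : (interior K).Nonempty
  rep : ∃ (Q : Fin r → QuadraticForm ℝ (Euc m)) (S : Fin r → Euc m → ℝ) (e : Fin r → ℝ),
    (∀ j, Pinched κ (Q j) (S j)) ∧ K = {x | ∀ j, S j x ≤ e j}

/-- the Lebesgue measure of a Euclidean space -/
noncomputable def lebesgue (F : Type) [NormedAddCommGroup F] [InnerProductSpace ℝ F]
    [FiniteDimensional ℝ F] [MeasurableSpace F] [BorelSpace F] : Measure F := volume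

/-- the Lebesgue measure (of the Euclidean space `W`) of the section `Ω ∩ W` by a subspace `W` -/
noncomputable def areaIn {F : Type} [NormedAddCommGroup F] [InnerProductSpace ℝ F]
    [FiniteDimensional ℝ F] [MeasurableSpace F] [BorelSpace F] (W : Submodule ℝ F) (Ω : Set F) :
    ℝ≥0∞ := lebesgue W {y : W | (y : F) ∈ Ω}

section defs

variable {κ : Type} [Fintype κ]

open Classical in
/-- divergence of a vector field on `ℝ^κ` -/
noncomputable def divergence (X : EuclideanSpace ℝ κ → EuclideanSpace ℝ κ)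
    (x : EuclideanSpace ℝ κ) : ℝ :=
  ∑ i, fderiv ℝ X x (EuclideanSpace.single i 1) i

/-- `C¹` vector fields with compact support in `Ω` and `‖X‖ ≤ 1` -/
structure Test (Ω : Set (EuclideanSpace ℝ κ)) (X : EuclideanSpace ℝ κ → EuclideanSpace ℝ κ) :
    Prop where
  diff : ContDiff ℝ 1 X
  comp : HasCompactSupport X
  sub : tsupport X ⊆ Ω
  le : ∀ x, ‖X x‖ ≤ 1

/-- the (De Giorgi) perimeter `P(E; Ω)` of `E` relative to the open set `Ω` -/
noncomputable def perimeter (E Ω : Set (EuclideanSpace ℝ κ)) : ℝ≥0∞ :=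
  ⨆ (X : EuclideanSpace ℝ κ → EuclideanSpace ℝ κ) (_ : Test Ω X),
    ENNReal.ofReal (∫ x in E, divergence X x)

/-- the area (Lebesgue measure in the hyperplane `a^⊥`) of the central section of `Ω` by `a^⊥` -/
noncomputable def sectionArea (Ω : Set (EuclideanSpace ℝ κ)) (a : EuclideanSpace ℝ κ) : ℝ≥0∞ :=
  areaIn (Submodule.span ℝ {a})ᗮ Ω

/-- some central hyperplane section has area at most `C P(E; Ω)` for every measurable `E ⊆ Ω` with
`|E| = |Ω| / 2` -/
def HyperplaneBound (C : ℝ) (Ω : Set (EuclideanSpace ℝ κ)) : Prop :=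
  ∃ a : EuclideanSpace ℝ κ, a ≠ 0 ∧ ∀ E : Set (EuclideanSpace ℝ κ), MeasurableSet E → E ⊆ Ω →
    volume E = volume Ω / 2 → sectionArea Ω a ≤ ENNReal.ofReal C * perimeter E Ω

/-- the perimeter is the one used in the proof -/
theorem perimeter_eq (E Ω : Set (EuclideanSpace ℝ κ)) :
    Pool.Agent.W695.KH.per E Ω = perimeter E Ω := by
  unfold perimeter Pool.Agent.W695.KH.per
  refine iSup_congr fun X => ?_
  refine iSup_congr_Prop ⟨fun h => ⟨h.1, h.2.1, h.2.2.1, h.2.2.2⟩,
    fun h => ⟨h.diff, h.comp, h.sub, h.le⟩⟩ fun _ => rfl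

end defs

theorem affine_eq {m n : ℕ} (T : Euc m →ᵃ[ℝ] Euc n) (K : Set (Euc m)) :
    T '' K = (fun x => T 0 + T.linear x) '' K := by
  refine image_congr fun x _ => ?_
  have h := T.map_vadd 0 x
  rw [vadd_eq_add, add_zero] at h
  rw [h, vadd_eq_add, add_comm]

theorem star_of (κ : ℝ) (r p : ℕ) : ∃ c : ℝ, 0 < c ∧ ∀ (m n : ℕ) (K : Set (Euc m))
    (T : Euc m →ᵃ[ℝ] Euc n), PinchedBody κ r K → m ≤ n + p → Function.Surjective T →
    IsCompact (T '' K) ∧ Convex ℝ (T '' K) ∧ (interior (T '' K)).Nonempty ∧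
    Pool.Agent.Y506.RG.Star c (Pool.Agent.Y506.PV.ind (T '' K)) := by
  obtain ⟨c, hc, H⟩ := Pool.Agent.V5helper78.KP.quad_star κ r p
  refine ⟨c, hc, fun m n K T hK hm hT => ?_⟩
  rw [affine_eq]
  obtain ⟨Q, S, e, h1, h2⟩ := hK.rep
  exact H m n K T.linear (T 0)
    ⟨hK.bdd, hK.int, Q, S, e, fun j => ⟨(h1 j).nonneg, (h1 j).lower, (h1 j).upper⟩, h2⟩ hm
    (by rwa [AffineMap.linear_surjective_iff])

/-- from the functional inequality to central sections -/
theorem hyper_of : ∀ c : ℝ, 0 < c → ∃ C : ℝ, 0 < C ∧ ∀ (n : ℕ) (P : Set (Euc n)), 1 ≤ n →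
    IsCompact P → Convex ℝ P → (interior P).Nonempty →
    Pool.Agent.Y506.RG.Star c (Pool.Agent.Y506.PV.ind P) → (∀ x ∈ P, -x ∈ P) →
    HyperplaneBound C (interior P) := by
  intro c hc
  obtain ⟨C, hC, H'⟩ := Pool.Agent.Y151.PV.hyp
  refine ⟨C * c, by positivity, fun n P hn h1 h2 h3 h4 hs => ?_⟩
  have hcl : closure (interior P) = P := by
    rw [h2.closure_interior_eq_closure_of_nonempty_interior h3, h1.isClosed.closure_eq]
  have hsi : ∀ x ∈ interior P, -x ∈ interior P := by
    intro x hx
    have hop : IsOpen ((fun y => -y) ⁻¹' interior P) := isOpen_interior.preimage continuous_neg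
    have hsub : (fun y => -y) ⁻¹' interior P ⊆ P := by
      intro y hy
      have := hs _ (interior_subset hy)
      rwa [neg_neg] at this
    exact interior_maximal hsub hop (by simpa using hx)
  have h0 : (0 : Euc n) ∈ interior P := by
    obtain ⟨x, hx⟩ := h3
    have h := h2.interior hx (hsi x hx) (by norm_num : (0 : ℝ) ≤ 1 / 2)
      (by norm_num : (0 : ℝ) ≤ 1 / 2) (by norm_num)
    rwa [smul_neg, add_neg_cancel] at h
  obtain ⟨a, ha, h⟩ := H' n hn (interior P) isOpen_interior h2.interior
    (h1.isBounded.subset interior_subset) h0 hsi c hc (by rw [hcl]; exact h4)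
  refine ⟨a, ha, fun E hE hEΩ hvol => ?_⟩
  rw [← perimeter_eq]
  by_cases hp : Pool.Agent.W695.KH.per E (interior P) = ⊤
  · rw [hp, ENNReal.mul_top (ENNReal.ofReal_pos.2 (by positivity)).ne']
    exact le_top
  · refine (h E hE hEΩ hvol _ (Pool.Agent.W695.KH.perLe_toReal E _ hp)).trans (le_of_eq ?_)
    rw [ENNReal.ofReal_mul (by positivity), ENNReal.ofReal_toReal hp]

/-- **The hyperplane conjecture for bodies given by few quadratic inequalities.** For all `κ, r, p` there
is a constant `C > 0` such that for all bodies `K ⊂ ℝ^m` of the class `PinchedBody κ r` and all affine maps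
`T` of `ℝ^m` onto `ℝ^n`, `1 ≤ n`, `m ≤ n + p`, such that `T K` is symmetric, the interior `Ω` of `T K` has a
central hyperplane section `Ω ∩ a^⊥` with `H_{n-1}(Ω ∩ a^⊥) ≤ C P(E; Ω)` for every measurable `E ⊆ Ω`
with `|E| = |Ω| / 2`. -/
theorem result : ∀ (κ : ℝ) (r p : ℕ), ∃ C : ℝ, 0 < C ∧
    ∀ (m n : ℕ) (K : Set (Euc m)) (T : Euc m →ᵃ[ℝ] Euc n), 1 ≤ n → PinchedBody κ r K →
    m ≤ n + p → Function.Surjective T → (∀ x ∈ T '' K, -x ∈ T '' K) →
    HyperplaneBound C (interior (T '' K)) := by
  intro κ r p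
  obtain ⟨c, hc, H⟩ := star_of κ r p
  obtain ⟨C, hC, H'⟩ := hyper_of c hc
  refine ⟨C, hC, fun m n K T hn hK hm hT hs => ?_⟩
  obtain ⟨h1, h2, h3, h4⟩ := H m n K T hK hm hT
  exact H' n _ hn h1 h2 h3 h4 hs

/-! ### examples -/

/-- bodies given by `r` convex quadratic inequalities `Q_j(x) + ⟪b_j, x⟫ ≤ e_j` -/
theorem quadratic {m r : ℕ} (Q : Fin r → QuadraticForm ℝ (Euc m)) (hQ : ∀ j x, 0 ≤ Q j x)
    (b : Fin r → Euc m) (e : Fin r → ℝ) {K : Set (Euc m)}
    (hK : K = {x | ∀ j, Q j x + ⟪b j, x⟫_ℝ ≤ e j}) (hb : Bornology.IsBounded K)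
    (hi : (interior K).Nonempty) : PinchedBody 1 r K := by
  have hv : ∀ j x, ((2 : ℝ) • Q j) x = 2 * Q j x := fun j x => rfl
  refine ⟨hb, hi, fun j => (2 : ℝ) • Q j, fun j x => Q j x + ⟪b j, x⟫_ℝ, e,
    fun j => ⟨fun x => ?_, ?_, ?_⟩, hK⟩
  · rw [hv]
    have := hQ j x
    positivity
  · refine ((innerₗ (Euc m) (b j)).convexOn convex_univ).congr fun x _ => ?_
    rw [hv, innerₗ_apply_apply]
    ring
  · refine ((-(innerₗ (Euc m) (b j))).convexOn convex_univ).congr fun x _ => ?_
    rw [hv, LinearMap.neg_apply, innerₗ_apply_apply]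
    ring

/-- The class of pinched functions is invariant under restrictions to affine subspaces (in coordinates:
`x ↦ J x + v`), so that the sections of the bodies by affine subspaces are given by `r` inequalities of
the same kind. -/
theorem restrict {κ : ℝ} {m r d : ℕ} {Q : Fin r → QuadraticForm ℝ (Euc m)} {S : Fin r → Euc m → ℝ}
    (h : ∀ j, Pinched κ (Q j) (S j)) (J : Euc d →ₗ[ℝ] Euc m) (v : Euc m) (e : Fin r → ℝ)
    {K : Set (Euc m)} (hK : K = {x | ∀ j, S j x ≤ e j})
    (hb : Bornology.IsBounded ((fun x => J x + v) ⁻¹' K))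
    (hi : (interior ((fun x => J x + v) ⁻¹' K)).Nonempty) :
    PinchedBody κ r ((fun x => J x + v) ⁻¹' K) := by
  refine ⟨hb, hi, fun j => (Q j).comp J, fun j x => S j (J x + v), e, fun j => ?_, by rw [hK]; rfl⟩
  let g : Euc d →ᵃ[ℝ] Euc m := J.toAffineMap + AffineMap.const ℝ (Euc d) v
  have hg : ∀ x, g x = J x + v := fun x => rfl
  let ℓ : Euc d →ₗ[ℝ] ℝ := (QuadraticMap.polarBilin (Q j)).flip v ∘ₗ J
  have hℓ : ∀ x, Q j (J x + v) = Q j (J x) + Q j v + ℓ x := fun x => QuadraticMap.map_add _ _ _
  refine ⟨fun x => (h j).nonneg _, ?_, ?_⟩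
  · have h1 := (h j).lower.comp_affineMap g
    rw [preimage_univ] at h1
    refine ((h1.add (((1 / 2 : ℝ) • ℓ).convexOn convex_univ)).add_const (Q j v / 2)).congr
      fun x _ => ?_
    simp only [Pi.add_apply, Function.comp_apply, hg, hℓ, LinearMap.smul_apply, smul_eq_mul,
      QuadraticMap.comp_apply]
    ring
  · have h1 := (h j).upper.comp_affineMap g
    rw [preimage_univ] at h1
    refine ((h1.add (((-κ / 2 : ℝ) • ℓ).convexOn convex_univ)).add_const (-κ * Q j v / 2)).congr
      fun x _ => ?_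
    simp only [Pi.add_apply, Function.comp_apply, hg, hℓ, LinearMap.smul_apply, smul_eq_mul,
      QuadraticMap.comp_apply]
    ring

end Pool.Agent.Results.MP_dc1397_gt.FewQuadratic
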