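import Pool.Agent.V5helper78.IK.Fin

/-!
# An isomorphic form of the hyperplane conjecture of KLS

There is an absolute constant `C` such that for every `0 < ε ≤ 1/2` every symmetric convex body
`K ⊂ ℝ^m` contains a symmetric convex body `K'` with

`|K'| ≥ (8000 L²)^(-ε m) |K|`, `L = max (1, L_K)`, `L_K` the isotropic constant of `K`,

that is `|K'|^(1/m) ≥ e^(-ε (9 + 2 log L)) |K|^(1/m)`, for which the best central hyperplane cut is at most
`C / √ε` times the perimeter (relative to `K'`) of any set of half the volume; the same for all linear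
images of `K'` (Q1 is not invariant under linear maps), and for the images under linear maps with kernels
of dimension at most `p`, with `C` depending on `p` only. The body is

`K' = {x | ‖x‖_K² + |A x|² ≤ 1}`, where `A` is linear and `∫_{K'} ⟪A x, e⟫² dx = ε / (m + 2) |K'|` for all unit
vectors `e`:

`K` is intersected (in the `ℓ_2` sense) with an ellipsoid which is homothetic to the inertia
ellipsoid of the result, and larger by a factor of order `ε^(-1/2)`; in particular `|A x|²` has mean at most `ε`
over `K'`, where `‖x‖_K² + |A x|²` is nearly `1` for most `x`: in most directions (for the uniform law on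
`K'`) the radial functions of `K` and `K'` differ by a factor near to `1`.

No property of `K` is assumed. It is known that `L_K` is bounded by an absolute constant (Klartag and
Lehec 2025, Bourgain's slicing problem); this is not used. The theorem is an analogue, for the hyperplane
conjecture of KLS, of the isomorphic slicing theorem of Klartag (On convex perturbations with a
bounded isotropic constant, 2006): every convex body is `(1 + ε)`-isomorphic to one with isotropic
constant at most `C / √ε`. There the distance is the one of Banach and Mazur, here volumes are compared.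

Method. (1) Let `F(A) = ∫ exp (-(‖x‖_K² + |A x|²)) dx`, and let `A` be a maximum of `F(A) |det A|^ε` over all linear
maps (it exists, because `F(A) |det A|` is bounded and `F(A) → 0` for `|A| → ∞`). Comparing `A` with
`(I + s e eᵀ) A` (by Jensen's inequality) shows that for the density `exp (-(‖x‖_K² + |A x|²))` the vector `A x`
has covariance `(ε / 2) I`. In the coordinates `A x` the Hessian is at least `2 I`, so by the inequality of
Brascamp and Lieb the density satisfies the Poincare inequality with constant `1 / ε` in isotropic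
position. (2) `F(A) = Γ(m/2 + 1) |K'|`. Comparing `A` with `√(ε/m) T`, `T K` isotropic, and using
`|det A| F(A) ≤ 2 |B_2^m| (m ε)^(m/2)` (the density of `A x` is at least the reciprocal of this somewhere, by
Markov's inequality) one gets the bound for the volume of `K'`. (3) The density in (1) is a mixture of the
uniform laws on the multiples `r K'`, where `r` has small relative fluctuations, so the concentration passes
to `K'`, with its constant. (4) Images and the passage from the concentration of all linear images to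
central sections: as in `ImagesOfSections` (modules `Y506.PV`), keeping the constants.

The lemmas were formalised by helpers 4, 6, 15, 18, 72 and 78.
-/

set_option autoImplicit false

namespace Pool.Agent.Results.MP_dc1397_gt.IsomorphicKLS

open MeasureTheory Set
open scoped ENNReal InnerProductSpace

/-- Euclidean space of dimension `n` -/
abbrev Euc (n : ℕ) : Type := EuclideanSpace ℝ (Fin n)

/-- symmetric convex bodies -/
structure SymBody {m : ℕ} (K : Set (Euc m)) : Prop where
  comp : IsCompact K
  conv : Convex ℝ K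
  int : (interior K).Nonempty
  symm : ∀ x ∈ K, -x ∈ K

/-- the matrix of the second moments `E x_i x_j` of the uniform law on `K` (the covariance matrix, if
`K = -K`) -/
noncomputable def covariance {m : ℕ} (K : Set (Euc m)) : Matrix (Fin m) (Fin m) ℝ :=
  Matrix.of fun i j => (∫ x in K, x i * x j) / (volume K).toReal

/-- the isotropic constant `L_K = (det Cov K)^(1/(2m)) / |K|^(1/m)` of a symmetric convex body
`K ⊂ ℝ^m` -/
noncomputable def isotropicConstant {m : ℕ} (K : Set (Euc m)) : ℝ :=
  (covariance K).det ^ (1 / (2 * (m : ℝ))) / (volume K).toReal ^ (1 / (m : ℝ))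

/-- the Lebesgue measure of a Euclidean space -/
noncomputable def lebesgue (F : Type) [NormedAddCommGroup F] [InnerProductSpace ℝ F]
    [FiniteDimensional ℝ F] [MeasurableSpace F] [BorelSpace F] : Measure F := volume

/-- the Lebesgue measure (of the Euclidean space `W`) of the section `Ω ∩ W` by a subspace `W` -/
noncomputable def areaIn {F : Type} [NormedAddCommGroup F] [InnerProductSpace ℝ F]
    [FiniteDimensional ℝ F] [MeasurableSpace F] [BorelSpace F] (W : Submodule ℝ F) (Ω : Set F) :
    ℝ≥0∞ := lebesgue W {y : W | (y : F) ∈ Ω}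

section defs

variable {κ : Type} [Fintype κ]

open Classical in
/-- divergence of a vector field on `ℝ^κ` -/
noncomputable def divergence (X : EuclideanSpace ℝ κ → EuclideanSpace ℝ κ)
    (x : EuclideanSpace ℝ κ) : ℝ :=
  ∑ i, fderiv ℝ X x (EuclideanSpace.single i 1) i

/-- `C¹` vector fields with compact support in `Ω` and `‖X‖ ≤ 1` -/
structure Test (Ω : Set (EuclideanSpace ℝ κ)) (X : EuclideanSpace ℝ κ → EuclideanSpace ℝ κ) :
    Prop where
  diff : ContDiff ℝ 1 X
  comp : HasCompactSupport X
  sub : tsupport X ⊆ Ω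
  le : ∀ x, ‖X x‖ ≤ 1

/-- the (De Giorgi) perimeter `P(E; Ω)` of `E` relative to the open set `Ω` -/
noncomputable def perimeter (E Ω : Set (EuclideanSpace ℝ κ)) : ℝ≥0∞ :=
  ⨆ (X : EuclideanSpace ℝ κ → EuclideanSpace ℝ κ) (_ : Test Ω X),
    ENNReal.ofReal (∫ x in E, divergence X x)

/-- the area (Lebesgue measure in the hyperplane `a^⊥`) of the central section of `Ω` by `a^⊥` -/
noncomputable def sectionArea (Ω : Set (EuclideanSpace ℝ κ)) (a : EuclideanSpace ℝ κ) : ℝ≥0∞ :=
  areaIn (Submodule.span ℝ {a})ᗮ Ω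

/-- some central hyperplane section has area at most `C P(E; Ω)` for every measurable `E ⊆ Ω` with
`|E| = |Ω| / 2` -/
def HyperplaneBound (C : ℝ) (Ω : Set (EuclideanSpace ℝ κ)) : Prop :=
  ∃ a : EuclideanSpace ℝ κ, a ≠ 0 ∧ ∀ E : Set (EuclideanSpace ℝ κ), MeasurableSet E → E ⊆ Ω →
    volume E = volume Ω / 2 → sectionArea Ω a ≤ ENNReal.ofReal C * perimeter E Ω

/-- the perimeter is the one used in the proof -/
theorem perimeter_eq (E Ω : Set (EuclideanSpace ℝ κ)) :
    Pool.Agent.W695.KH.per E Ω = perimeter E Ω := by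
  unfold perimeter Pool.Agent.W695.KH.per
  refine iSup_congr fun X => ?_
  refine iSup_congr_Prop ⟨fun h => ⟨h.1, h.2.1, h.2.2.1, h.2.2.2⟩,
    fun h => ⟨h.diff, h.comp, h.sub, h.le⟩⟩ fun _ => rfl

end defs

/-- from the functional inequality to central sections -/
theorem hyper_of : ∃ C : ℝ, 0 < C ∧ ∀ c : ℝ, 0 < c → ∀ (n : ℕ) (P : Set (Euc n)), 1 ≤ n →
    IsCompact P → Convex ℝ P → (interior P).Nonempty →
    Pool.Agent.Y506.RG.Star c (Pool.Agent.Y506.PV.ind P) → (∀ x ∈ P, -x ∈ P) →
    HyperplaneBound (C * c) (interior P) := by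
  obtain ⟨C, hC, H'⟩ := Pool.Agent.Y151.PV.hyp
  refine ⟨C, hC, fun c hc n P hn h1 h2 h3 h4 hs => ?_⟩
  have hcl : closure (interior P) = P := by
    rw [h2.closure_interior_eq_closure_of_nonempty_interior h3, h1.isClosed.closure_eq]
  have hsi : ∀ x ∈ interior P, -x ∈ interior P := by
    intro x hx
    have hop : IsOpen ((fun y => -y) ⁻¹' interior P) := isOpen_interior.preimage continuous_neg
    have hsub : (fun y => -y) ⁻¹' interior P ⊆ P := by
      intro y hy
      have := hs _ (interior_subset hy)
      rwa [neg_neg] at this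
    exact interior_maximal hsub hop (by simpa using hx)
  have h0 : (0 : Euc n) ∈ interior P := by
    obtain ⟨x, hx⟩ := h3
    have h := h2.interior hx (hsi x hx) (by norm_num : (0 : ℝ) ≤ 1 / 2)
      (by norm_num : (0 : ℝ) ≤ 1 / 2) (by norm_num)
    rwa [smul_neg, add_neg_cancel] at h
  obtain ⟨a, ha, h⟩ := H' n hn (interior P) isOpen_interior h2.interior
    (h1.isBounded.subset interior_subset) h0 hsi c hc (by rw [hcl]; exact h4)
  refine ⟨a, ha, fun E hE hEΩ hvol => ?_⟩
  rw [← perimeter_eq]
  by_cases hp : Pool.Agent.W695.KH.per E (interior P) = ⊤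
  · rw [hp, ENNReal.mul_top (ENNReal.ofReal_pos.2 (by positivity)).ne']
    exact le_top
  · refine (h E hE hEΩ hvol _ (Pool.Agent.W695.KH.perLe_toReal E _ hp)).trans (le_of_eq ?_)
    rw [ENNReal.ofReal_mul (by positivity), ENNReal.ofReal_toReal hp]

/-- **Isomorphic form of the hyperplane conjecture.** For every `p` there is a constant `C > 0` such that
for all `0 < ε ≤ 1/2` and every symmetric convex body `K ⊂ ℝ^m`, `m ≥ 1`, with isotropic constant `L_K`, there
are a linear map `A` and a symmetric convex body `K' = {x | ‖x‖_K² + |A x|² ≤ 1} ⊆ K` with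
`∫_{K'} ⟪A x, e⟫² dx = ε / (m + 2) |K'|` for all unit vectors `e`, and
`|K'| ≥ (8000 max(1, L_K)²)^(-ε m) |K|`, such that for all linear maps `T` of `ℝ^m` onto `ℝⁿ`, `1 ≤ n`,
`m ≤ n + p`, the interior `Ω` of `T K'` has a central hyperplane section `Ω ∩ a^⊥` with
`H_{n-1}(Ω ∩ a^⊥) ≤ (C / √ε) P(E; Ω)` for every measurable `E ⊆ Ω` with `|E| = |Ω| / 2`. -/
theorem result : ∀ p : ℕ, ∃ C : ℝ, 0 < C ∧
    ∀ (ε : ℝ) (m : ℕ) (K : Set (Euc m)), 0 < ε → ε ≤ 1 / 2 → 1 ≤ m → SymBody K →
    ∃ (A : Euc m →ₗ[ℝ] Euc m) (K' : Set (Euc m)), K' = {x | gauge K x ^ 2 + ‖A x‖ ^ 2 ≤ 1} ∧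
      SymBody K' ∧ K' ⊆ K ∧
      (∀ e : Euc m, ‖e‖ = 1 →
        ∫ x in K', ⟪A x, e⟫_ℝ ^ 2 = ε / (m + 2) * (volume K').toReal) ∧
      ENNReal.ofReal (((8000 * max 1 (isotropicConstant K) ^ 2)⁻¹) ^ (ε * m)) * volume K ≤
        volume K' ∧
      ∀ (n : ℕ) (T : Euc m →ₗ[ℝ] Euc n), 1 ≤ n → m ≤ n + p → Function.Surjective T →
        HyperplaneBound (C / Real.sqrt ε) (interior (T '' K')) := by
  intro p
  obtain ⟨c, hc, H⟩ := Pool.Agent.V5helper78.IK.starE p
  obtain ⟨C, hC, H'⟩ := hyper_of
  refine ⟨C * c, by positivity, fun ε m K hε hε2 hm hK => ?_⟩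
  obtain ⟨A, hA, hv⟩ := Pool.Agent.V5helper78.IK.exists_iso hm hK.comp hK.conv hK.int hK.symm
    hε hε2
  have hg := hA.nm
  set K' : Set (Euc m) := {x | gauge K x ^ 2 + ‖A x‖ ^ 2 ≤ 1} with hK'
  have hKe : K' = {x | Pool.Agent.V5helper78.IK.En (gauge K) A x ≤ 1} := rfl
  have hcl : Pool.Agent.V5helper78.IK.Cl ε m K' := ⟨gauge K, A, hA, hKe⟩
  obtain ⟨b1, b2, b3⟩ := hcl.body
  have hsym : ∀ x ∈ K', -x ∈ K' := by
    intro x hx
    change gauge K (-x) ^ 2 + ‖A (-x)‖ ^ 2 ≤ 1
    rw [hg.neg, map_neg, norm_neg]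
    exact hx
  have hKg : K = {x | gauge K x ≤ 1} :=
    (Pool.Agent.V5helper18.IK.GAU.t_GAU m K hK.comp hK.conv hK.int hK.symm).2
  refine ⟨(A : Euc m →ₗ[ℝ] Euc m), K', rfl, ⟨b1, b2, b3, hsym⟩, ?_, fun e he => ?_, ?_,
    fun n T hn hmn hT => ?_⟩
  · intro x hx
    rw [hKg]
    have h1 : gauge K x ^ 2 + ‖A x‖ ^ 2 ≤ 1 := hx
    change gauge K x ≤ 1
    nlinarith [sq_nonneg ‖A x‖, gauge_nonneg (s := K) x]
  · exact hA.cov_body hm e he
  · exact Pool.Agent.V5helper78.IK.vol_body hm hK.comp hK.conv hK.int hK.symm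
      (by positivity) hv
  · obtain ⟨h1, h2, h3, h4⟩ := H ε hε hε2 m n K' T hn hcl hmn hT
    have hsq : 0 < Real.sqrt ε := Real.sqrt_pos.2 hε
    have h5 := H' (c / Real.sqrt ε) (by positivity) n _ hn h1 h2 h3 h4 (by
      rintro _ ⟨x, hx, rfl⟩
      exact ⟨-x, hsym x hx, map_neg T x⟩)
    rwa [← mul_div_assoc] at h5

end Pool.Agent.Results.MP_dc1397_gt.IsomorphicKLS
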