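import Pool.Agent.V5helper78.KO.Pbi

/-!
# The hyperplane form of the KLS conjecture for Orlicz sums of arbitrarily many convex bodies

Q1 for symmetric bodies

`K = {x ∈ ℝ^m | ∑_{i < B} V_ji(x_i) ≤ e_j for all j < r}`,

and for their symmetric images under affine maps of `ℝ^m` onto `ℝ^n`, `m ≤ n + p`, where `x ↦ (x_i)` is a
linear bijection of `ℝ^m` onto a product of arbitrarily many spaces `ℝ^{k_i}` of arbitrary dimensions,
and where the functions of each block are either

* `V_ji(y) = φ_ji(‖y‖_{K_i})` for a convex body `K_i ⊂ ℝ^{k_i}` with barycentre `0` which satisfies the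
  Poincare inequality with constant `c₀` in isotropic position, `‖y‖_{K_i}` its gauge, and
  arbitrary convex nondecreasing lower semicontinuous functions `φ_ji : [0, ∞) → (-∞, ∞]`; or
* arbitrary convex lower semicontinuous functions `ℝ^{k_i} → (-∞, ∞]`, if `k_i ≤ s`; or
* convex lower semicontinuous functions which do not change when coordinates of `y ∈ ℝ^{k_i}` are
  permuted or change their signs.

The constant depends only on `c₀`, `s`, `r`, `p`: not on the number of the blocks, their dimensions, the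
bodies `K_i` and the functions. Values `+∞` are allowed, so that arbitrarily many further
constraints `‖x_i‖_{K_i} ≤ ρ_i` may be present. Example: `ℓ_q` sums `{∑ ‖x_i‖_{K_i}^q ≤ 1}`, and
intersections of `r` such bodies with different exponents.

In `CompositeBodies` the number of the bodies `K_i` is bounded (the constant depends on it); in
`FewInequalities` the functions of a block of unbounded dimension are those invariant under a classical
group, and in `RadialBlocks` they are functions of Euclidean norms. Kolesnikov and Milman (Ann. Probab.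
2018) treat `r = 1`, `k_i = 1` and typical levels `e`.

Method. (1) The new fact (`Pool.Agent.V5helper78.KO.gauge_AP'`): if `K` satisfies the Poincare
inequality with constant `c₀` in isotropic position and has barycentre `0`, then so do all probability
densities proportional to `exp (-ψ(‖x‖_K))`, `ψ` convex and nondecreasing, with a constant which depends
only on `c₀`. Proof: let `m` be defined by `ψ(m) = ψ(0) + k`. In the polar coordinates `x = ρ θ`,
`‖θ‖_K = 1`, the variance over `θ` in the bulk `ρ ≤ 6 m` is estimated by the Poincare inequality on the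
dilates `r K`, `r ≤ 6 m` (the density is a mixture of their uniform measures); the averages over `θ` are
functions of `ρ`, for which one uses the inequality for the rotation invariant density
`exp (-ψ(|y|))` on `ℝ^k` and `∫ |θ|² = k + 2`; in the tail `ρ > 6 m` the density
`ρ^{k-1} exp (-ψ(ρ))` decays exponentially at the scale `m / k`, which suffices, along every ray,
since `|θ|² ≤ 3 (k + 1)²`. Lower bounds for the variances of linear functions
give the isotropic form. (2) Products: the Gibbs densities `exp (-∑_ji l_j V_ji(x_i))` satisfy the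
Poincare inequality in isotropic position. (3) The theorem of `GibbsLevelSets` (modules `N483.KM`)
passes to the level sets. (4) Values `+∞`: the functions `φ_ji(|t|)` on `ℝ` are approximated with the
theorem on approximation of `FewInequalities`, in dimension one. (5) Images and the passage
from the concentration of all linear images to central sections: as in `ImagesOfSections`.
-/

set_option autoImplicit false

namespace Pool.Agent.Results.MP_dc1397_gt.OrliczSums

open MeasureTheory Set
open scoped ENNReal InnerProductSpace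

/-- Euclidean space of dimension `n` -/
abbrev Euc (n : ℕ) : Type := EuclideanSpace ℝ (Fin n)

/-- convex bodies: compact, convex, with nonempty interior -/
structure IsBody {k : ℕ} (K : Set (Euc k)) : Prop where
  comp : IsCompact K
  conv : Convex ℝ K
  int : (interior K).Nonempty

/-- the uniform probability measure on `K` -/
noncomputable def unif {m : ℕ} (K : Set (Euc m)) : Measure (Euc m) :=
  (volume K)⁻¹ • volume.restrict K

/-- convex bodies which satisfy the Poincaré inequality `Var f ≤ c₀ E ‖∇ f‖²`, for all `C¹` functions,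
in isotropic position: after some linear bijection `A` which makes all variances of the coordinates
in directions of length one equal to one -/
structure PoincareBody (c₀ : ℝ) {k : ℕ} (K : Set (Euc k)) : Prop extends IsBody K where
  ineq : ∃ A : Euc k ≃ₗ[ℝ] Euc k,
    (∀ θ : Euc k, ProbabilityTheory.variance (fun x => ⟪A x, θ⟫_ℝ) (unif K) = ‖θ‖ ^ 2) ∧
    ∀ f : Euc k → ℝ, ContDiff ℝ 1 f → ProbabilityTheory.variance (fun x => f (A x)) (unif K) ≤
      c₀ * ∫ x, ‖fderiv ℝ f (A x)‖ ^ 2 ∂(unif K)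

/-- the barycentre of `K` is the origin -/
def Centred {k : ℕ} (K : Set (Euc k)) : Prop := ∫ x in K, x = 0

/-- functions `[0, ∞) → (-∞, ∞]` which are nondecreasing, convex and lower semicontinuous -/
structure Profile (φ : ℝ → EReal) : Prop where
  ne_bot : ∀ t, 0 ≤ t → φ t ≠ ⊥
  lsc : LowerSemicontinuousOn φ (Ici 0)
  mono : ∀ s t, 0 ≤ s → s ≤ t → φ s ≤ φ t
  convex : ∀ s t a : ℝ, 0 ≤ s → 0 ≤ t → 0 < a → a < 1 →
    φ ((1 - a) * s + a * t) ≤ ((1 - a : ℝ) : EReal) * φ s + (a : EReal) * φ t

/-- convex lower semicontinuous functions `ℝ^k → (-∞, ∞]` -/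
structure ConvexLSC {k : ℕ} (V : Euc k → EReal) : Prop where
  ne_bot : ∀ y, V y ≠ ⊥
  lsc : LowerSemicontinuous V
  convex : ∀ (x y : Euc k) (a : ℝ), 0 < a → a < 1 →
    V ((1 - a) • x + a • y) ≤ ((1 - a : ℝ) : EReal) * V x + (a : EReal) * V y

/-- `V` does not change when coordinates are permuted or change their signs -/
def OneSymmetric {k : ℕ} (V : Euc k → EReal) : Prop :=
  ∀ σ : Equiv.Perm (Fin k), ∀ x y : Euc k, (∀ i, |y i| = |x (σ i)|) → V y = V x

/-- The admissible systems `V_1, …, V_r` of functions of a block `y ∈ ℝ^k`: profiles of the gauge of one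
centred convex body with the Poincaré inequality with constant `c₀`; any convex lower semicontinuous
functions, if `k ≤ s`; convex lower semicontinuous functions invariant under permutations and changes
of signs of the coordinates. -/
inductive Block (c₀ : ℝ) (s r : ℕ) : ∀ k : ℕ, (Fin r → Euc k → EReal) → Prop
  | gauge (k : ℕ) (K : Set (Euc k)) (φ : Fin r → ℝ → EReal) : 1 ≤ k → PoincareBody c₀ K →
      Centred K → (∀ j, Profile (φ j)) → Block c₀ s r k fun j y => φ j (gauge K y)
  | small (k : ℕ) (V : Fin r → Euc k → EReal) : k ≤ s → (∀ j, ConvexLSC (V j)) → Block c₀ s r k V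
  | symmetric (k : ℕ) (V : Fin r → Euc k → EReal) : 1 ≤ k → (∀ j, ConvexLSC (V j)) →
      (∀ j, OneSymmetric (V j)) → Block c₀ s r k V

/-- bounded sets with nonempty interior `{x ∈ ℝ^m | ∑_i V_ji((L x)_i) ≤ e_j for all j < r}`, where `L` is a
linear bijection of `ℝ^m` onto a product of spaces `ℝ^{k_i}` and the functions of each block are
admissible -/
structure OrliczSum (c₀ : ℝ) (s r : ℕ) {m : ℕ} (K : Set (Euc m)) : Prop where
  bdd : Bornology.IsBounded K
  int : (interior K).Nonempty
  rep : ∃ (B : ℕ) (k : Fin B → ℕ) (L : Euc m ≃ₗ[ℝ] (∀ i, Euc (k i)))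
    (V : ∀ i, Fin r → Euc (k i) → EReal) (e : Fin r → ℝ), (∀ i, Block c₀ s r (k i) (V i)) ∧
    K = {x | ∀ j, ∑ i, V i j (L x i) ≤ (e j : EReal)}

/-- the Lebesgue measure of a Euclidean space -/
noncomputable def lebesgue (F : Type) [NormedAddCommGroup F] [InnerProductSpace ℝ F]
    [FiniteDimensional ℝ F] [MeasurableSpace F] [BorelSpace F] : Measure F := volume

/-- the Lebesgue measure (of the Euclidean space `W`) of the section `Ω ∩ W` by a subspace `W` -/
noncomputable def areaIn {F : Type} [NormedAddCommGroup F] [InnerProductSpace ℝ F]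
    [FiniteDimensional ℝ F] [MeasurableSpace F] [BorelSpace F] (W : Submodule ℝ F) (Ω : Set F) :
    ℝ≥0∞ := lebesgue W {y : W | (y : F) ∈ Ω}

section defs

variable {κ : Type} [Fintype κ]

open Classical in
/-- divergence of a vector field on `ℝ^κ` -/
noncomputable def divergence (X : EuclideanSpace ℝ κ → EuclideanSpace ℝ κ)
    (x : EuclideanSpace ℝ κ) : ℝ :=
  ∑ i, fderiv ℝ X x (EuclideanSpace.single i 1) i

/-- `C¹` vector fields with compact support in `Ω` and `‖X‖ ≤ 1` -/
structure Test (Ω : Set (EuclideanSpace ℝ κ)) (X : EuclideanSpace ℝ κ → EuclideanSpace ℝ κ) :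
    Prop where
  diff : ContDiff ℝ 1 X
  comp : HasCompactSupport X
  sub : tsupport X ⊆ Ω
  le : ∀ x, ‖X x‖ ≤ 1

/-- the (De Giorgi) perimeter `P(E; Ω)` of `E` relative to the open set `Ω` -/
noncomputable def perimeter (E Ω : Set (EuclideanSpace ℝ κ)) : ℝ≥0∞ :=
  ⨆ (X : EuclideanSpace ℝ κ → EuclideanSpace ℝ κ) (_ : Test Ω X),
    ENNReal.ofReal (∫ x in E, divergence X x)

/-- the area (Lebesgue measure in the hyperplane `a^⊥`) of the central section of `Ω` by `a^⊥` -/
noncomputable def sectionArea (Ω : Set (EuclideanSpace ℝ κ)) (a : EuclideanSpace ℝ κ) : ℝ≥0∞ :=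
  areaIn (Submodule.span ℝ {a})ᗮ Ω

/-- some central hyperplane section has area at most `C P(E; Ω)` for every measurable `E ⊆ Ω` with
`|E| = |Ω| / 2` -/
def HyperplaneBound (C : ℝ) (Ω : Set (EuclideanSpace ℝ κ)) : Prop :=
  ∃ a : EuclideanSpace ℝ κ, a ≠ 0 ∧ ∀ E : Set (EuclideanSpace ℝ κ), MeasurableSet E → E ⊆ Ω →
    volume E = volume Ω / 2 → sectionArea Ω a ≤ ENNReal.ofReal C * perimeter E Ω

/-- the perimeter is the one used in the proof -/
theorem perimeter_eq (E Ω : Set (EuclideanSpace ℝ κ)) :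
    Pool.Agent.W695.KH.per E Ω = perimeter E Ω := by
  unfold perimeter Pool.Agent.W695.KH.per
  refine iSup_congr fun X => ?_
  refine iSup_congr_Prop ⟨fun h => ⟨h.1, h.2.1, h.2.2.1, h.2.2.2⟩,
    fun h => ⟨h.diff, h.comp, h.sub, h.le⟩⟩ fun _ => rfl

end defs

theorem var_eq {n : ℕ} {K : Set (Euc n)} (hK : IsCompact K) (hi : (interior K).Nonempty)
    {f : Euc n → ℝ} (hf : Continuous f) : ProbabilityTheory.variance f (unif K) =
      (∫ x, f x ^ 2 ∂(unif K)) - (∫ x, f x ∂(unif K)) ^ 2 := by
  have h0 : volume K ≠ 0 := Pool.Agent.R755.KF.vol_ne hi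
  have hp : IsProbabilityMeasure (unif K) :=
    Pool.Agent.R754.KG.un_prob h0 hK.measure_lt_top.ne
  have h2 : Integrable (fun x => f x ^ 2) (unif K) :=
    Pool.Agent.R754.KG.un_int h0 hK.isBounded (hf.pow 2)
  rw [ProbabilityTheory.variance_eq_sub
    ((memLp_two_iff_integrable_sq hf.aestronglyMeasurable).2 h2)]
  rfl

theorem pi_of {c₀ : ℝ} {N : ℕ} {C : Set (Euc N)} (h : PoincareBody c₀ C) :
    Pool.Agent.R755.KF.PI c₀ C := by
  obtain ⟨A, h1, h2⟩ := h.ineq
  have hAc : Continuous A := A.toLinearMap.continuous_of_finiteDimensional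
  refine ⟨h.comp, h.conv, h.int, A, fun θ => ?_, fun f hf => ?_⟩
  · have h3 := h1 θ
    rw [var_eq h.comp h.int (by fun_prop)] at h3
    exact h3
  · have h3 := h2 f hf
    rw [var_eq h.comp h.int (f := fun x => f (A x)) (hf.continuous.comp hAc)] at h3
    exact h3

theorem mean_of {k : ℕ} {K : Set (Euc k)} (hK : IsCompact K) (h : Centred K) (θ : Euc k) :
    ∫ x in K, ⟪x, θ⟫_ℝ = 0 := by
  have hi : Integrable (fun x : Euc k => x) (volume.restrict K) :=
    continuous_id.continuousOn.integrableOn_compact hK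
  have h1 := integral_inner (𝕜 := ℝ) hi θ
  unfold Centred at h
  rw [h, inner_zero_right] at h1
  rw [← h1]
  refine integral_congr_ae (Filter.Eventually.of_forall fun x => ?_)
  exact real_inner_comm _ _

/-- the functions of a block in terms of a profile -/
theorem block_rep (c₀ : ℝ) (s : ℕ) : ∃ A : ℝ, 0 < A ∧ ∀ (r k : ℕ) (V : Fin r → Euc k → EReal),
    Block c₀ s r k V → ∃ (d : ℕ) (N : Euc k → Euc d) (G : Set (Euc d ≃ₗᵢ[ℝ] Euc d))
      (W : Fin r → Euc d → EReal), Pool.Agent.V5helper78.KO.Pb A N G ∧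
      (∀ j, Pool.Agent.N483.KM.XF (W j)) ∧ (∀ g ∈ G, ∀ j y, W j (g y) = W j y) ∧
      ∀ j x, V j x = W j (N x) := by
  obtain ⟨A1, h1, H1⟩ := Pool.Agent.V5helper78.KO.pb_gauge c₀
  obtain ⟨A2, h2, H2⟩ := Pool.Agent.N483.KM.bk_gd Pool.Agent.N483.KM.gddR s
  refine ⟨A1 + A2, by positivity, fun r k V hV => ?_⟩
  cases hV with
  | gauge K φ hk hK hc hφ =>
    have h3 := H1 k K hk (pi_of hK) (mean_of hK.comp hc)
    refine ⟨1, Pool.Agent.V5helper78.KO.gp K, Pool.Agent.V5helper78.KO.ngs,
      fun j y => φ j |y 0|, h3.mono (by linarith), fun j => ⟨fun y => ?_, ?_, ?_⟩, ?_, ?_⟩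
    · exact (hφ j).ne_bot _ (abs_nonneg _)
    · have h4 : Continuous fun y : Euc 1 => |y 0| := by fun_prop
      intro y t ht
      have h5 := (hφ j).lsc |y 0| (mem_Ici.2 (abs_nonneg _)) t ht
      have h6 : Filter.Tendsto (fun y : Euc 1 => |y 0|) (nhds y)
          (nhdsWithin |y 0| (Ici 0)) :=
        tendsto_nhdsWithin_iff.2 ⟨h4.tendsto y, Filter.Eventually.of_forall fun z => mem_Ici.2 (abs_nonneg _)⟩
      exact h6.eventually h5
    · intro x y t ht ht1
      have h5 : |((1 - t) • x + t • y) 0| ≤ (1 - t) * |x 0| + t * |y 0| := by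
        simp only [PiLp.add_apply, PiLp.smul_apply, smul_eq_mul]
        refine (abs_add_le _ _).trans (le_of_eq ?_)
        rw [abs_mul, abs_mul, abs_of_pos ht, abs_of_pos (by linarith : (0 : ℝ) < 1 - t)]
      exact ((hφ j).mono _ _ (abs_nonneg _) h5).trans
        ((hφ j).convex _ _ t (abs_nonneg _) (abs_nonneg _) ht ht1)
    · intro g hg j y
      rw [mem_singleton_iff.1 hg]
      simp
    · intro j x
      simp only [Pool.Agent.V5helper78.KO.gp, PiLp.single_apply, if_true]
      rw [abs_of_nonneg (gauge_nonneg x)]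
  | small _ hk hV =>
    exact ⟨k, fun x => x, ∅, V, (Pool.Agent.V5helper78.KO.pb_plain
      (H2 k ∅ (.small k ∅ hk))).mono (by linarith),
      fun j => ⟨(hV j).ne_bot, (hV j).lsc, (hV j).convex⟩, fun g hg => absurd hg (notMem_empty g),
      fun j x => rfl⟩
  | symmetric _ hk hV hs =>
    refine ⟨k, fun x => x, Pool.Agent.N483.KM.GSY k, V, (Pool.Agent.V5helper78.KO.pb_plain
      (H2 k _ (.coord k hk))).mono (by linarith),
      fun j => ⟨(hV j).ne_bot, (hV j).lsc, (hV j).convex⟩, fun g hg j y => ?_, fun j x => rfl⟩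
    obtain ⟨σ, hσ⟩ := hg
    exact hs j σ y (g y) (hσ y)

theorem affine_eq {m n : ℕ} (T : Euc m →ᵃ[ℝ] Euc n) (K : Set (Euc m)) :
    T '' K = (fun x => T 0 + T.linear x) '' K := by
  refine image_congr fun x _ => ?_
  have h := T.map_vadd 0 x
  rw [vadd_eq_add, add_zero] at h
  rw [h, vadd_eq_add, add_comm]

theorem star_of (c₀ : ℝ) (s r p : ℕ) : ∃ c : ℝ, 0 < c ∧ ∀ (m n : ℕ) (K : Set (Euc m))
    (T : Euc m →ᵃ[ℝ] Euc n), OrliczSum c₀ s r K → m ≤ n + p → Function.Surjective T →
    IsCompact (T '' K) ∧ Convex ℝ (T '' K) ∧ (interior (T '' K)).Nonempty ∧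
    Pool.Agent.Y506.RG.Star c (Pool.Agent.Y506.PV.ind (T '' K)) := by
  obtain ⟨A, hA, HA⟩ := block_rep c₀ s
  obtain ⟨c, hc, H⟩ := Pool.Agent.V5helper78.KO.eng_star r p A hA
  refine ⟨c, hc, fun m n K T hK hm hT => ?_⟩
  obtain ⟨B, k, L, V, e, hV, hKe⟩ := hK.rep
  choose d N G W h1 h2 h3 h4 using fun i => HA r (k i) (V i) (hV i)
  rw [affine_eq]
  refine H B m n k d N G L (fun j i => W i j) e K T.linear (T 0) h1 (fun j i => h2 i j)
    (fun i g hg j x => h3 i g hg j x) ?_ hK.bdd hK.int hm
    (by rwa [AffineMap.linear_surjective_iff])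
  rw [hKe]
  simp only [h4]

/-- from the functional inequality to central sections -/
theorem hyper_of : ∀ c : ℝ, 0 < c → ∃ C : ℝ, 0 < C ∧ ∀ (n : ℕ) (P : Set (Euc n)), 1 ≤ n →
    IsCompact P → Convex ℝ P → (interior P).Nonempty →
    Pool.Agent.Y506.RG.Star c (Pool.Agent.Y506.PV.ind P) → (∀ x ∈ P, -x ∈ P) →
    HyperplaneBound C (interior P) := by
  intro c hc
  obtain ⟨C, hC, H'⟩ := Pool.Agent.Y151.PV.hyp
  refine ⟨C * c, by positivity, fun n P hn h1 h2 h3 h4 hs => ?_⟩
  have hcl : closure (interior P) = P := by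
    rw [h2.closure_interior_eq_closure_of_nonempty_interior h3, h1.isClosed.closure_eq]
  have hsi : ∀ x ∈ interior P, -x ∈ interior P := by
    intro x hx
    have hop : IsOpen ((fun y => -y) ⁻¹' interior P) := isOpen_interior.preimage continuous_neg
    have hsub : (fun y => -y) ⁻¹' interior P ⊆ P := by
      intro y hy
      have := hs _ (interior_subset hy)
      rwa [neg_neg] at this
    exact interior_maximal hsub hop (by simpa using hx)
  have h0 : (0 : Euc n) ∈ interior P := by
    obtain ⟨x, hx⟩ := h3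
    have h := h2.interior hx (hsi x hx) (by norm_num : (0 : ℝ) ≤ 1 / 2)
      (by norm_num : (0 : ℝ) ≤ 1 / 2) (by norm_num)
    rwa [smul_neg, add_neg_cancel] at h
  obtain ⟨a, ha, h⟩ := H' n hn (interior P) isOpen_interior h2.interior
    (h1.isBounded.subset interior_subset) h0 hsi c hc (by rw [hcl]; exact h4)
  refine ⟨a, ha, fun E hE hEΩ hvol => ?_⟩
  rw [← perimeter_eq]
  by_cases hp : Pool.Agent.W695.KH.per E (interior P) = ⊤
  · rw [hp, ENNReal.mul_top (ENNReal.ofReal_pos.2 (by positivity)).ne']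
    exact le_top
  · refine (h E hE hEΩ hvol _ (Pool.Agent.W695.KH.perLe_toReal E _ hp)).trans (le_of_eq ?_)
    rw [ENNReal.ofReal_mul (by positivity), ENNReal.ofReal_toReal hp]

/-- **The hyperplane conjecture for Orlicz sums of convex bodies.** For all `c₀, s, r, p` there is a
constant `C > 0` such that for all bodies `K ⊂ ℝ^m` of the class `OrliczSum c₀ s r` and all affine maps
`T` of `ℝ^m` onto `ℝ^n`, `1 ≤ n`, `m ≤ n + p`, such that `T K` is symmetric, the interior `Ω` of `T K` has a
central hyperplane section `Ω ∩ a^⊥` with `H_{n-1}(Ω ∩ a^⊥) ≤ C P(E; Ω)` for every measurable `E ⊆ Ω`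
with `|E| = |Ω| / 2`. -/
theorem result : ∀ (c₀ : ℝ) (s r p : ℕ), ∃ C : ℝ, 0 < C ∧
    ∀ (m n : ℕ) (K : Set (Euc m)) (T : Euc m →ᵃ[ℝ] Euc n), 1 ≤ n → OrliczSum c₀ s r K →
    m ≤ n + p → Function.Surjective T → (∀ x ∈ T '' K, -x ∈ T '' K) →
    HyperplaneBound C (interior (T '' K)) := by
  intro c₀ s r p
  obtain ⟨c, hc, H⟩ := star_of c₀ s r p
  obtain ⟨C, hC, H'⟩ := hyper_of c hc
  refine ⟨C, hC, fun m n K T hn hK hm hT hs => ?_⟩
  obtain ⟨h1, h2, h3, h4⟩ := H m n K T hK hm hT
  exact H' n _ hn h1 h2 h3 h4 hs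

/-! ### an example -/

theorem coe_sum {ι : Type} (s : Finset ι) (f : ι → ℝ) :
    ((∑ i ∈ s, f i : ℝ) : EReal) = ∑ i ∈ s, (f i : EReal) :=
  map_sum (⟨⟨Real.toEReal, rfl⟩, EReal.coe_add⟩ : ℝ →+ EReal) f s

theorem profile_rpow {q : ℝ} (hq : 1 ≤ q) : Profile fun t => ((t ^ q : ℝ) : EReal) := by
  refine ⟨fun t _ => EReal.coe_ne_bot _, ?_, fun s t hs hst => ?_, fun s t a hs ht ha ha1 => ?_⟩
  · have h1 : Continuous fun t : ℝ => ((t ^ q : ℝ) : EReal) :=
      continuous_coe_real_ereal.comp (continuous_id.rpow_const fun _ => Or.inr (by linarith))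
    exact h1.lowerSemicontinuous.lowerSemicontinuousOn _
  · exact EReal.coe_le_coe_iff.2 (Real.rpow_le_rpow hs hst (by linarith))
  · rw [← EReal.coe_mul, ← EReal.coe_mul, ← EReal.coe_add, EReal.coe_le_coe_iff]
    have h1 := (convexOn_rpow hq).2 (mem_Ici.2 hs) (mem_Ici.2 ht)
      (by linarith : (0 : ℝ) ≤ 1 - a) ha.le (by ring)
    simpa only [smul_eq_mul] using h1

/-- Example: the `ℓ_q` sums `{x | ∑_i ‖(L x)_i‖_{K_i}^q ≤ e}`, `q ≥ 1`, of any number of bodies `K_i` -/
theorem lq_sums (c₀ q e : ℝ) (hq : 1 ≤ q) {m B : ℕ} (k : Fin B → ℕ)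
    (L : Euc m ≃ₗ[ℝ] (∀ i, Euc (k i))) (K : ∀ i, Set (Euc (k i))) (hk : ∀ i, 1 ≤ k i)
    (hK : ∀ i, PoincareBody c₀ (K i)) (hc : ∀ i, Centred (K i)) {S : Set (Euc m)}
    (hS : S = {x | ∑ i, gauge (K i) (L x i) ^ q ≤ e}) (hb : Bornology.IsBounded S)
    (hi : (interior S).Nonempty) : OrliczSum c₀ 0 1 S := by
  refine ⟨hb, hi, B, k, L, fun i _ y => ((gauge (K i) y ^ q : ℝ) : EReal), fun _ => e,
    fun i => .gauge (k i) (K i) (fun _ t => ((t ^ q : ℝ) : EReal)) (hk i) (hK i) (hc i)
      fun _ => profile_rpow hq, ?_⟩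
  rw [hS]
  ext x
  constructor
  · intro hx j
    change ∑ i, ((gauge (K i) (L x i) ^ q : ℝ) : EReal) ≤ (e : EReal)
    rw [← coe_sum, EReal.coe_le_coe_iff]
    exact hx
  · intro hx
    have h1 : ∑ i, ((gauge (K i) (L x i) ^ q : ℝ) : EReal) ≤ (e : EReal) := hx 0
    rw [← coe_sum, EReal.coe_le_coe_iff] at h1
    exact h1

end Pool.Agent.Results.MP_dc1397_gt.OrliczSums
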