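import Pool.Agent.V5helper78.KU.Fnl

/-!
# The hyperplane form of the KLS conjecture for unconditional sums of arbitrarily many convex bodies

Q1 for symmetric bodies

`S = {x ∈ ℝ^m | (‖x_1‖_{K_1}, …, ‖x_M‖_{K_M}) ∈ D}`

and for their symmetric images under affine maps of `ℝ^m` onto `ℝ^n`, `m ≤ n + p`, where `x ↦ (x_i)` is a
linear bijection of `ℝ^m` onto a product of `M` spaces `ℝ^{k_i}` of arbitrary dimensions `k_i ≥ 1`,

* `K_i ⊂ ℝ^{k_i}` are arbitrary convex bodies with barycentre `0` which satisfy the Poincare inequality with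
  constant `c₀` in isotropic position, and `‖·‖_{K_i}` is the gauge of `K_i`;
* `D ⊂ ℝ^M` is an arbitrary unconditional compact convex set (`ρ ∈ D` and `|ρ'_i| ≤ |ρ_i|` for all `i`
  imply `ρ' ∈ D`);
* for a set `G` of indices `∑_{i ∈ G} exp (-T k_i) ≤ 1` (for example `k_i ≥ (log M) / T` for `i ∈ G`), and
  the other norms, divided by their root mean squares over `S`, do not get large simultaneously: for all
  `t ≥ 1` the set of the `x ∈ S` with `‖x_i‖_{K_i} > A t rms(‖x_i‖_{K_i})` for some `i ∉ G` has measure at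
  most `exp (-t) |S|` (for example this set is empty if these norms are at most `A` times their
  root mean squares on `S`).

The constant depends only on `c₀`, `T`, `A`, `p`: not on the number of the blocks, their dimensions, the
bodies `K_i` and the set `D`. In particular it is uniform for all unconditional sums of `M` bodies of
dimensions at least `(log M) / T` (`large_blocks` below), with no conditions on `D`.

`RadialBlocks` treats Euclidean balls `K_i`; in `OrliczSums` the set `D` is given by a bounded number of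
inequalities `∑_i φ_ji(ρ_i) ≤ e_j`; in `CompositeBodies` the number of the bodies is bounded. For
`k_i = 1` and general `D` the best constant known is `C √(log m)` (the bound of Klartag for all bodies).

Method (modules `V5helper78.KU`). (1) Localization: let `D ⊂ {ρ_i ≤ a √(k_i / (k_i + 2))}`. In polar
coordinates `x_i = ρ_i θ_i`, `‖θ_i‖_{K_i} = 1`, the variance over the directions `θ` is estimated with the
Efron-Stein inequality, one block at a time: for fixed other blocks the block `x_i` is uniform in a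
dilate `r K_i`, `r ≤ a`, of `K_i`. The means over the directions are functions of `ρ`; they are
considered as functions on the body `S' = {(|y_i| / √(k_i + 2))_i ∈ D}` with Euclidean blocks, on
which the Poincare inequality is known (modules `TH610.RB`: the weighted inequality
for sets invariant under rotations of the blocks); the gradients are compared with `∫ |θ_i|² = k_i + 2`,
separately in each block. This gives the inequality with the constant `C c₀ a²`, for functions on `S`.
(2) Tails: the norms of the blocks `i ∈ G` exceed `C (1 + T + t)` times their typical values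
with probability at most `exp (-t)`, by comparison with `S'`. (3) From nested sets to the whole body: the argument of
`multi0` (modules `TH594.KP`) gives a bound for the variances of Lipschitz functions in isotropic position. (4) Images,
and the passage from the concentration of all linear images to central sections: as in `ImagesOfSections`.
-/

set_option autoImplicit false

namespace Pool.Agent.Results.MP_dc1397_gt.UnconditionalSums

open MeasureTheory Set
open scoped ENNReal InnerProductSpace

/-- Euclidean space of dimension `n` -/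
abbrev Euc (n : ℕ) : Type := EuclideanSpace ℝ (Fin n)

/-- convex bodies: compact, convex, with nonempty interior -/
structure IsBody {k : ℕ} (K : Set (Euc k)) : Prop where
  comp : IsCompact K
  conv : Convex ℝ K
  int : (interior K).Nonempty

/-- the uniform probability measure on `K` -/
noncomputable def unif {m : ℕ} (K : Set (Euc m)) : Measure (Euc m) :=
  (volume K)⁻¹ • volume.restrict K

/-- convex bodies which satisfy the Poincaré inequality `Var f ≤ c₀ E ‖∇ f‖²`, for all `C¹` functions,
in isotropic position: after some linear bijection `A` which makes all variances of the coordinates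
in directions of length one equal to one -/
structure PoincareBody (c₀ : ℝ) {k : ℕ} (K : Set (Euc k)) : Prop extends IsBody K where
  ineq : ∃ A : Euc k ≃ₗ[ℝ] Euc k,
    (∀ θ : Euc k, ProbabilityTheory.variance (fun x => ⟪A x, θ⟫_ℝ) (unif K) = ‖θ‖ ^ 2) ∧
    ∀ f : Euc k → ℝ, ContDiff ℝ 1 f → ProbabilityTheory.variance (fun x => f (A x)) (unif K) ≤
      c₀ * ∫ x, ‖fderiv ℝ f (A x)‖ ^ 2 ∂(unif K)

/-- the barycentre of `K` is the origin -/
def Centred {k : ℕ} (K : Set (Euc k)) : Prop := ∫ x in K, x = 0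

/-- unconditional compact convex sets in `ℝ^M` -/
structure Unconditional {M : ℕ} (D : Set (Fin M → ℝ)) : Prop where
  closed : IsClosed D
  bdd : Bornology.IsBounded D
  conv : Convex ℝ D
  solid : ∀ ρ ∈ D, ∀ ρ' : Fin M → ℝ, (∀ i, |ρ' i| ≤ |ρ i|) → ρ' ∈ D

/-- the root mean square of `u` over `S` -/
noncomputable def rms {m : ℕ} (S : Set (Euc m)) (u : Euc m → ℝ) : ℝ :=
  Real.sqrt (∫ x, u x ^ 2 ∂(unif S))

/-- sets with nonempty interior `{x ∈ ℝ^m | (‖(L x)_i‖_{K_i})_i ∈ D}`, where `L` is a linear bijection of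
`ℝ^m` onto a product of spaces `ℝ^{k_i}`, `K_i` are centred bodies with the Poincaré inequality with
constant `c₀`, `D` is unconditional, `∑_{i ∈ G} exp (-T k_i) ≤ 1`, and the maximum of the other norms,
divided by their root mean squares, exceeds `A t` on a set of measure at most `exp (-t) |S|`, for all
`t ≥ 1` -/
structure UnconditionalSum (c₀ T A : ℝ) {m : ℕ} (S : Set (Euc m)) : Prop where
  int : (interior S).Nonempty
  rep : ∃ (M : ℕ) (k : Fin M → ℕ) (L : Euc m ≃ₗ[ℝ] (∀ i, Euc (k i))) (K : ∀ i, Set (Euc (k i)))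
    (D : Set (Fin M → ℝ)) (G : Finset (Fin M)), (∀ i, 1 ≤ k i) ∧
    (∀ i, PoincareBody c₀ (K i)) ∧ (∀ i, Centred (K i)) ∧ Unconditional D ∧
    S = {x | (fun i => gauge (K i) (L x i)) ∈ D} ∧ ∑ i ∈ G, Real.exp (-(T * k i)) ≤ 1 ∧
    ∀ t : ℝ, 1 ≤ t → volume {x ∈ S | ∃ i ∉ G,
      A * t * rms S (fun x => gauge (K i) (L x i)) < gauge (K i) (L x i)} ≤
        ENNReal.ofReal (Real.exp (-t)) * volume S

/-- the Lebesgue measure of a Euclidean space -/
noncomputable def lebesgue (F : Type) [NormedAddCommGroup F] [InnerProductSpace ℝ F]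
    [FiniteDimensional ℝ F] [MeasurableSpace F] [BorelSpace F] : Measure F := volume

/-- the Lebesgue measure (of the Euclidean space `W`) of the section `Ω ∩ W` by a subspace `W` -/
noncomputable def areaIn {F : Type} [NormedAddCommGroup F] [InnerProductSpace ℝ F]
    [FiniteDimensional ℝ F] [MeasurableSpace F] [BorelSpace F] (W : Submodule ℝ F) (Ω : Set F) :
    ℝ≥0∞ := lebesgue W {y : W | (y : F) ∈ Ω}

section defs

variable {κ : Type} [Fintype κ]

open Classical in
/-- divergence of a vector field on `ℝ^κ` -/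
noncomputable def divergence (X : EuclideanSpace ℝ κ → EuclideanSpace ℝ κ)
    (x : EuclideanSpace ℝ κ) : ℝ :=
  ∑ i, fderiv ℝ X x (EuclideanSpace.single i 1) i

/-- `C¹` vector fields with compact support in `Ω` and `‖X‖ ≤ 1` -/
structure Test (Ω : Set (EuclideanSpace ℝ κ)) (X : EuclideanSpace ℝ κ → EuclideanSpace ℝ κ) :
    Prop where
  diff : ContDiff ℝ 1 X
  comp : HasCompactSupport X
  sub : tsupport X ⊆ Ω
  le : ∀ x, ‖X x‖ ≤ 1

/-- the (De Giorgi) perimeter `P(E; Ω)` of `E` relative to the open set `Ω` -/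
noncomputable def perimeter (E Ω : Set (EuclideanSpace ℝ κ)) : ℝ≥0∞ :=
  ⨆ (X : EuclideanSpace ℝ κ → EuclideanSpace ℝ κ) (_ : Test Ω X),
    ENNReal.ofReal (∫ x in E, divergence X x)

/-- the area (Lebesgue measure in the hyperplane `a^⊥`) of the central section of `Ω` by `a^⊥` -/
noncomputable def sectionArea (Ω : Set (EuclideanSpace ℝ κ)) (a : EuclideanSpace ℝ κ) : ℝ≥0∞ :=
  areaIn (Submodule.span ℝ {a})ᗮ Ω

/-- some central hyperplane section has area at most `C P(E; Ω)` for every measurable `E ⊆ Ω` with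
`|E| = |Ω| / 2` -/
def HyperplaneBound (C : ℝ) (Ω : Set (EuclideanSpace ℝ κ)) : Prop :=
  ∃ a : EuclideanSpace ℝ κ, a ≠ 0 ∧ ∀ E : Set (EuclideanSpace ℝ κ), MeasurableSet E → E ⊆ Ω →
    volume E = volume Ω / 2 → sectionArea Ω a ≤ ENNReal.ofReal C * perimeter E Ω

/-- the perimeter is the one used in the proof -/
theorem perimeter_eq (E Ω : Set (EuclideanSpace ℝ κ)) :
    Pool.Agent.W695.KH.per E Ω = perimeter E Ω := by
  unfold perimeter Pool.Agent.W695.KH.per
  refine iSup_congr fun X => ?_
  refine iSup_congr_Prop ⟨fun h => ⟨h.1, h.2.1, h.2.2.1, h.2.2.2⟩,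
    fun h => ⟨h.diff, h.comp, h.sub, h.le⟩⟩ fun _ => rfl

end defs

theorem var_eq {n : ℕ} {K : Set (Euc n)} (hK : IsCompact K) (hi : (interior K).Nonempty)
    {f : Euc n → ℝ} (hf : Continuous f) : ProbabilityTheory.variance f (unif K) =
      (∫ x, f x ^ 2 ∂(unif K)) - (∫ x, f x ∂(unif K)) ^ 2 := by
  have h0 : volume K ≠ 0 := Pool.Agent.R755.KF.vol_ne hi
  have hp : IsProbabilityMeasure (unif K) :=
    Pool.Agent.R754.KG.un_prob h0 hK.measure_lt_top.ne
  have h2 : Integrable (fun x => f x ^ 2) (unif K) :=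
    Pool.Agent.R754.KG.un_int h0 hK.isBounded (hf.pow 2)
  rw [ProbabilityTheory.variance_eq_sub
    ((memLp_two_iff_integrable_sq hf.aestronglyMeasurable).2 h2)]
  rfl

theorem pi_of {c₀ : ℝ} {N : ℕ} {C : Set (Euc N)} (h : PoincareBody c₀ C) :
    Pool.Agent.R755.KF.PI c₀ C := by
  obtain ⟨A, h1, h2⟩ := h.ineq
  have hAc : Continuous A := A.toLinearMap.continuous_of_finiteDimensional
  refine ⟨h.comp, h.conv, h.int, A, fun θ => ?_, fun f hf => ?_⟩
  · have h3 := h1 θ
    rw [var_eq h.comp h.int (by fun_prop)] at h3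
    exact h3
  · have h3 := h2 f hf
    rw [var_eq h.comp h.int (f := fun x => f (A x)) (hf.continuous.comp hAc)] at h3
    exact h3

theorem mean_of {k : ℕ} {K : Set (Euc k)} (hK : IsCompact K) (h : Centred K) (θ : Euc k) :
    ∫ x in K, ⟪x, θ⟫_ℝ = 0 := by
  have hi : Integrable (fun x : Euc k => x) (volume.restrict K) :=
    continuous_id.continuousOn.integrableOn_compact hK
  have h1 := integral_inner (𝕜 := ℝ) hi θ
  unfold Centred at h
  rw [h, inner_zero_right] at h1
  rw [← h1]
  refine integral_congr_ae (Filter.Eventually.of_forall fun x => ?_)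
  exact real_inner_comm _ _

theorem affine_eq {m n : ℕ} (T : Euc m →ᵃ[ℝ] Euc n) (K : Set (Euc m)) :
    T '' K = (fun x => T 0 + T.linear x) '' K := by
  refine image_congr fun x _ => ?_
  have h := T.map_vadd 0 x
  rw [vadd_eq_add, add_zero] at h
  rw [h, vadd_eq_add, add_comm]

theorem rms_eq {m : ℕ} (S : Set (Euc m)) (u : Euc m → ℝ) :
    rms S u = Pool.Agent.V5helper78.KU.rq S u := by
  unfold rms Pool.Agent.V5helper78.KU.rq unif
  rw [integral_smul_measure, ENNReal.toReal_inv, smul_eq_mul]
  rfl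

theorem ru_of {c₀ T A : ℝ} {m : ℕ} {S : Set (Euc m)} (h : UnconditionalSum c₀ T A S) :
    Pool.Agent.V5helper78.KU.Ru c₀ T A S := by
  obtain ⟨M, k, L, K, D, G, h1, h2, h3, h4, h5, h6, h7⟩ := h.rep
  refine ⟨h.int, M, k, L, K, D, G, h1, h6, fun i => pi_of (h2 i),
    fun i => mean_of (h2 i).comp (h3 i), ⟨h4.closed, h4.conv, h4.solid⟩, h4.bdd, h5,
    fun t ht => ?_⟩
  have h8 := h7 t ht
  simp only [rms_eq] at h8
  exact h8

theorem star_of (c₀ T A : ℝ) (p : ℕ) : ∃ c : ℝ, 0 < c ∧ ∀ (m n : ℕ) (S : Set (Euc m))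
    (f : Euc m →ᵃ[ℝ] Euc n), UnconditionalSum c₀ T A S → m ≤ n + p → Function.Surjective f →
    IsCompact (f '' S) ∧ Convex ℝ (f '' S) ∧ (interior (f '' S)).Nonempty ∧
    Pool.Agent.Y506.RG.Star c (Pool.Agent.Y506.PV.ind (f '' S)) := by
  obtain ⟨c, hc, H⟩ := Pool.Agent.V5helper78.KU.ru_star c₀ T A p
  refine ⟨c, hc, fun m n S f hS hm hf => ?_⟩
  rw [affine_eq]
  exact H m n S f.linear (f 0) (ru_of hS) hm (by rwa [AffineMap.linear_surjective_iff])

/-- from the functional inequality to central sections -/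
theorem hyper_of : ∀ c : ℝ, 0 < c → ∃ C : ℝ, 0 < C ∧ ∀ (n : ℕ) (P : Set (Euc n)), 1 ≤ n →
    IsCompact P → Convex ℝ P → (interior P).Nonempty →
    Pool.Agent.Y506.RG.Star c (Pool.Agent.Y506.PV.ind P) → (∀ x ∈ P, -x ∈ P) →
    HyperplaneBound C (interior P) := by
  intro c hc
  obtain ⟨C, hC, H'⟩ := Pool.Agent.Y151.PV.hyp
  refine ⟨C * c, by positivity, fun n P hn h1 h2 h3 h4 hs => ?_⟩
  have hcl : closure (interior P) = P := by
    rw [h2.closure_interior_eq_closure_of_nonempty_interior h3, h1.isClosed.closure_eq]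
  have hsi : ∀ x ∈ interior P, -x ∈ interior P := by
    intro x hx
    have hop : IsOpen ((fun y => -y) ⁻¹' interior P) := isOpen_interior.preimage continuous_neg
    have hsub : (fun y => -y) ⁻¹' interior P ⊆ P := by
      intro y hy
      have := hs _ (interior_subset hy)
      rwa [neg_neg] at this
    exact interior_maximal hsub hop (by simpa using hx)
  have h0 : (0 : Euc n) ∈ interior P := by
    obtain ⟨x, hx⟩ := h3
    have h := h2.interior hx (hsi x hx) (by norm_num : (0 : ℝ) ≤ 1 / 2)
      (by norm_num : (0 : ℝ) ≤ 1 / 2) (by norm_num)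
    rwa [smul_neg, add_neg_cancel] at h
  obtain ⟨a, ha, h⟩ := H' n hn (interior P) isOpen_interior h2.interior
    (h1.isBounded.subset interior_subset) h0 hsi c hc (by rw [hcl]; exact h4)
  refine ⟨a, ha, fun E hE hEΩ hvol => ?_⟩
  rw [← perimeter_eq]
  by_cases hp : Pool.Agent.W695.KH.per E (interior P) = ⊤
  · rw [hp, ENNReal.mul_top (ENNReal.ofReal_pos.2 (by positivity)).ne']
    exact le_top
  · refine (h E hE hEΩ hvol _ (Pool.Agent.W695.KH.perLe_toReal E _ hp)).trans (le_of_eq ?_)
    rw [ENNReal.ofReal_mul (by positivity), ENNReal.ofReal_toReal hp]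

/-- **The hyperplane conjecture for unconditional sums of convex bodies.** For all `c₀, T, A, p` there is a
constant `C > 0` such that for all bodies `S ⊂ ℝ^m` of the class `UnconditionalSum c₀ T A` and all affine maps
`f` of `ℝ^m` onto `ℝ^n`, `1 ≤ n`, `m ≤ n + p`, such that `f S` is symmetric, the interior `Ω` of `f S` has a
central hyperplane section `Ω ∩ a^⊥` with `H_{n-1}(Ω ∩ a^⊥) ≤ C P(E; Ω)` for every measurable `E ⊆ Ω`
with `|E| = |Ω| / 2`. -/
theorem result : ∀ (c₀ T A : ℝ) (p : ℕ), ∃ C : ℝ, 0 < C ∧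
    ∀ (m n : ℕ) (S : Set (Euc m)) (f : Euc m →ᵃ[ℝ] Euc n), 1 ≤ n → UnconditionalSum c₀ T A S →
    m ≤ n + p → Function.Surjective f → (∀ x ∈ f '' S, -x ∈ f '' S) →
    HyperplaneBound C (interior (f '' S)) := by
  intro c₀ T A p
  obtain ⟨c, hc, H⟩ := star_of c₀ T A p
  obtain ⟨C, hC, H'⟩ := hyper_of c hc
  refine ⟨C, hC, fun m n S f hn hS hm hf hs => ?_⟩
  obtain ⟨h1, h2, h3, h4⟩ := H m n S f hS hm hf
  exact H' n _ hn h1 h2 h3 h4 hs

/-! ### special cases -/

/-- Unconditional sums of `M` bodies of dimensions `k_i ≥ (log M) / T`. -/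
theorem large_blocks (c₀ T : ℝ) {m M : ℕ} (k : Fin M → ℕ) (L : Euc m ≃ₗ[ℝ] (∀ i, Euc (k i)))
    (K : ∀ i, Set (Euc (k i))) (D : Set (Fin M → ℝ)) (hk : ∀ i, 1 ≤ k i)
    (hM : ∀ i, Real.log M ≤ T * k i) (hK : ∀ i, PoincareBody c₀ (K i))
    (hc : ∀ i, Centred (K i)) (hD : Unconditional D) {S : Set (Euc m)}
    (hS : S = {x | (fun i => gauge (K i) (L x i)) ∈ D}) (hi : (interior S).Nonempty) :
    UnconditionalSum c₀ T 0 S := by
  refine ⟨hi, M, k, L, K, D, Finset.univ, hk, hK, hc, hD, hS, ?_, fun t _ => ?_⟩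
  · rcases Nat.eq_zero_or_pos M with rfl | hM0
    · simp
    have hMp : (0 : ℝ) < M := by exact_mod_cast hM0
    calc ∑ i, Real.exp (-(T * k i)) ≤ ∑ _i : Fin M, (M : ℝ)⁻¹ := by
          refine Finset.sum_le_sum fun i _ => ?_
          rw [Real.exp_neg]
          refine inv_anti₀ hMp ?_
          rw [← Real.log_le_iff_le_exp hMp]
          exact hM i
      _ = 1 := by
          rw [Finset.sum_const, Finset.card_univ, Fintype.card_fin, nsmul_eq_mul,
            mul_inv_cancel₀ hMp.ne']
  · have e1 : {x ∈ S | ∃ i ∉ (Finset.univ : Finset (Fin M)),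
        0 * t * rms S (fun x => gauge (K i) (L x i)) < gauge (K i) (L x i)} = ∅ := by
      ext x
      simp
    rw [e1, measure_empty]
    exact zero_le

/-- Unconditional sums of bodies of arbitrary dimensions, on which the norms are at most `A` times their
root mean squares. -/
theorem bounded_blocks (c₀ A : ℝ) {m M : ℕ} (k : Fin M → ℕ) (L : Euc m ≃ₗ[ℝ] (∀ i, Euc (k i)))
    (K : ∀ i, Set (Euc (k i))) (D : Set (Fin M → ℝ)) (hk : ∀ i, 1 ≤ k i) (hA : 0 ≤ A)
    (hK : ∀ i, PoincareBody c₀ (K i)) (hc : ∀ i, Centred (K i)) (hD : Unconditional D)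
    {S : Set (Euc m)} (hS : S = {x | (fun i => gauge (K i) (L x i)) ∈ D})
    (hi : (interior S).Nonempty)
    (hb : ∀ x ∈ S, ∀ i, gauge (K i) (L x i) ≤ A * rms S fun x => gauge (K i) (L x i)) :
    UnconditionalSum c₀ 0 A S := by
  refine ⟨hi, M, k, L, K, D, ∅, hk, hK, hc, hD, hS, by simp, fun t ht => ?_⟩
  have e1 : {x ∈ S | ∃ i ∉ (∅ : Finset (Fin M)),
      A * t * rms S (fun x => gauge (K i) (L x i)) < gauge (K i) (L x i)} = ∅ := by
    ext x
    simp only [mem_ofPred_eq, mem_empty_iff_false, iff_false, not_and, not_exists, not_lt]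
    intro hx i _
    refine (hb x hx i).trans (mul_le_mul_of_nonneg_right ?_ (Real.sqrt_nonneg _))
    exact le_mul_of_one_le_right hA ht
  rw [e1, measure_empty]
  exact zero_le

end Pool.Agent.Results.MP_dc1397_gt.UnconditionalSums
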